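import Mathlib

set_option autoImplicit false

/-!
# MP_33f3d1_co: all finite bounded ordered sets are simultaneously minimal relating retracts

A stronger form of the starting result `FivePoints` (one ordered set with five elements, two
minimal relating retracts). For a finite ordered set `Y` let `E Y` be the set of the symbols
`(y, s)`, `s = 0, 1, 2`, where `(y, s) ≤ (z, t)` if they are equal or if `y ≤ z` and `s < t` or
`s = t = 1`. Then `Y × {1}` is a minimal relating retract of `E Y`, and also of every ordinal sum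
of such sets, if `Y` is bounded.
-/

namespace Pool.Agent.Results.MP_33f3d1_co.AllBoundedPosets

/-- `Y` is a relating retract of the ordered set `X`: there is an order preserving map `r : X → X`
with values in `Y`, fixing every point of `Y`, such that `x` and `r x` are comparable
for every `x` outside `Y`. -/
def IsRelatingRetract {X : Type} [PartialOrder X] (Y : Set X) : Prop :=
  ∃ r : X → X, (∀ x x', x ≤ x' → r x ≤ r x') ∧ (∀ x, r x ∈ Y) ∧ (∀ y ∈ Y, r y = y) ∧
    ∀ x, x ∉ Y → (x ≤ r x ∨ r x ≤ x)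

/-- `Y` is a minimal relating retract of `X`: it is a relating retract and no proper nonempty
subset of `Y` is a relating retract of `X`. -/
def IsMinimalRelatingRetract {X : Type} [PartialOrder X] (Y : Set X) : Prop :=
  IsRelatingRetract Y ∧ ∀ Z : Set X, Z ⊂ Y → Z.Nonempty → ¬ IsRelatingRetract Z

/-- The symbols `(y, s)`. -/
structure E (Y : Type) where
  pt : Y
  lev : Fin 3

instance {Y : Type} [PartialOrder Y] : PartialOrder (E Y) where
  le a b := a = b ∨ (a.pt ≤ b.pt ∧ (a.lev < b.lev ∨ (a.lev = 1 ∧ b.lev = 1)))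
  le_refl a := Or.inl rfl
  le_trans a b c hab hbc := by
    rcases hab with rfl | ⟨h1, h2⟩
    · exact hbc
    · rcases hbc with rfl | ⟨h3, h4⟩
      · exact Or.inr ⟨h1, h2⟩
      · refine Or.inr ⟨h1.trans h3, ?_⟩
        rcases h2 with h2 | ⟨h2, h2'⟩
        · rcases h4 with h4 | ⟨h4, h4'⟩
          · exact Or.inl (h2.trans h4)
          · left; rw [h4']; rw [h4] at h2; exact h2
        · rcases h4 with h4 | ⟨h4, h4'⟩
          · left; rw [h2]; rw [h2'] at h4; exact h4
          · exact Or.inr ⟨h2, h4'⟩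
  le_antisymm a b hab hba := by
    rcases hab with rfl | ⟨h1, h2⟩
    · rfl
    · rcases hba with h | ⟨h3, h4⟩
      · exact h.symm
      · obtain ⟨y, s⟩ := a
        obtain ⟨z, t⟩ := b
        simp only at h1 h2 h3 h4
        obtain rfl := le_antisymm h1 h3
        rcases h2 with h2 | ⟨h2, h2'⟩
        · rcases h4 with h4 | ⟨h4, h4'⟩
          · exact absurd (h2.trans h4) (lt_irrefl _)
          · rw [h4, h4'] at h2; exact absurd h2 (lt_irrefl _)
        · rw [h2, h2']

theorem E_le {Y : Type} [PartialOrder Y] {a b : E Y} :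
    a ≤ b ↔ a = b ∨ (a.pt ≤ b.pt ∧ (a.lev < b.lev ∨ (a.lev = 1 ∧ b.lev = 1))) := Iff.rfl

theorem E_pt {Y : Type} [PartialOrder Y] {a b : E Y} (h : a ≤ b) : a.pt ≤ b.pt := by
  rcases E_le.1 h with rfl | ⟨h, -⟩
  · exact le_refl _
  · exact h

instance {Y : Type} [Finite Y] : Finite (E Y) :=
  Finite.of_injective (fun a : E Y => (a.pt, a.lev)) (by
    rintro ⟨a, s⟩ ⟨b, t⟩ h
    simp only [Prod.mk.injEq] at h
    obtain ⟨rfl, rfl⟩ := h
    rfl)

section

variable {m : ℕ} (Y : Fin m → Type) [∀ i, PartialOrder (Y i)]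

/-- the ordinal sum of the sets `E (Y i)` -/
abbrev Sum : Type := Σₗ i, E (Y i)

/-- the element `(y, s)` of the summand `i` -/
def el (i : Fin m) (y : Y i) (s : Fin 3) : Sum Y := toLex ⟨i, ⟨y, s⟩⟩

/-- the copy of `Y i` in the ordinal sum -/
def copy (i : Fin m) : Set (Sum Y) := Set.range fun y => el Y i y 1

theorem el_le_el {i : Fin m} {a b : Y i} {s t : Fin 3} :
    el Y i a s ≤ el Y i b t ↔ (⟨a, s⟩ : E (Y i)) ≤ ⟨b, t⟩ := by
  constructor
  · intro h
    cases h with
    | left _ _ h => exact absurd h (lt_irrefl _)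
    | right _ _ h => exact h
  · intro h
    exact Sigma.Lex.right _ _ h

theorem el_one_le {i : Fin m} {a b : Y i} : el Y i a 1 ≤ el Y i b 1 ↔ a ≤ b := by
  rw [el_le_el, E_le]
  constructor
  · rintro (h | ⟨h, -⟩)
    · rw [E.mk.injEq] at h
      rw [h.1]
    · exact h
  · intro h
    exact Or.inr ⟨h, Or.inr ⟨rfl, rfl⟩⟩

theorem el_inj {i : Fin m} {a b : Y i} {s t : Fin 3} (h : el Y i a s = el Y i b t) :
    a = b ∧ s = t := by
  have h1 : (⟨a, s⟩ : E (Y i)) = ⟨b, t⟩ := by
    apply le_antisymm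
    · exact (el_le_el Y).1 h.le
    · exact (el_le_el Y).1 h.ge
  rw [E.mk.injEq] at h1
  exact h1

/-- the copy of `Y i` as an order embedding -/
def emb (i : Fin m) : Y i ↪o Sum Y :=
  OrderEmbedding.ofMapLEIff (fun y => el Y i y 1) (fun _ _ => el_one_le Y)

variable [∀ i, BoundedOrder (Y i)]

/-- the coordinate of the retraction onto the copy of `Y i` -/
def val (i : Fin m) (x : Sum Y) : Y i :=
  if h : x.1 = i then (h ▸ x.2 : E (Y i)).pt else if x.1 < i then ⊥ else ⊤

theorem val_el (i : Fin m) (y : Y i) (s : Fin 3) : val Y i (el Y i y s) = y := by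
  unfold val el
  exact dif_pos rfl

theorem val_lt {i : Fin m} {x : Sum Y} (h : x.1 < i) : val Y i x = ⊥ := by
  unfold val
  rw [dif_neg h.ne, if_pos h]

theorem val_gt {i : Fin m} {x : Sum Y} (h : i < x.1) : val Y i x = ⊤ := by
  unfold val
  rw [dif_neg h.ne', if_neg (not_lt.2 h.le)]

theorem val_mono (i : Fin m) {x x' : Sum Y} (h : x ≤ x') : val Y i x ≤ val Y i x' := by
  cases h with
  | @left j j' a a' h =>
    rcases lt_or_ge j i with h1 | h1
    · rw [val_lt Y (x := ⟨j, a⟩) h1]
      exact bot_le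
    · rw [val_gt Y (x := ⟨j', a'⟩) (lt_of_le_of_lt h1 h)]
      exact le_top
  | @right j a a' h =>
    rcases lt_trichotomy j i with h1 | h1 | h1
    · rw [val_lt Y (x := ⟨j, a⟩) h1]
      exact bot_le
    · subst h1
      have e1 := val_el Y j a.pt a.lev
      have e2 := val_el Y j a'.pt a'.lev
      show val Y j (el Y j a.pt a.lev) ≤ val Y j (el Y j a'.pt a'.lev)
      rw [e1, e2]
      exact E_pt h
    · rw [val_gt Y (x := ⟨j, a'⟩) h1]
      exact le_top

theorem isRelatingRetract (i : Fin m) : IsRelatingRetract (Set.range (emb Y i)) := by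
  refine ⟨fun x => el Y i (val Y i x) 1, fun x x' h => (el_one_le Y).2 (val_mono Y i h),
    fun x => ⟨val Y i x, rfl⟩, ?_, ?_⟩
  · rintro _ ⟨y, rfl⟩
    show el Y i (val Y i (el Y i y 1)) 1 = el Y i y 1
    rw [val_el]
  · rintro ⟨j, a⟩ hx
    rcases lt_trichotomy j i with h1 | h1 | h1
    · left
      exact Sigma.Lex.left _ _ h1
    · subst h1
      obtain ⟨y, s⟩ := a
      show el Y j y s ≤ el Y j (val Y j (el Y j y s)) 1 ∨ el Y j (val Y j (el Y j y s)) 1 ≤ el Y j y s
      rw [val_el, el_le_el, el_le_el, E_le, E_le]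
      have h3 : s = 1 ∨ s < 1 ∨ 1 < s := by
        revert s
        intro s _
        fin_cases s <;> decide
      rcases h3 with h3 | h3 | h3
      · rw [h3]
        exact Or.inl (Or.inl rfl)
      · exact Or.inl (Or.inr ⟨le_refl _, Or.inl h3⟩)
      · exact Or.inr (Or.inr ⟨le_refl _, Or.inl h3⟩)
    · right
      exact Sigma.Lex.left _ _ h1

theorem isMinimal (i : Fin m) : IsMinimalRelatingRetract (Set.range (emb Y i)) := by
  refine ⟨isRelatingRetract Y i, ?_⟩
  rintro W ⟨hW, hne⟩ - ⟨r, hmono, hmem, -, hcomp⟩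
  obtain ⟨_, ⟨y, rfl⟩, hy⟩ := Set.not_subset.1 hne
  have hnot : ∀ s : Fin 3, s ≠ 1 → el Y i y s ∉ W := by
    intro s hs h
    obtain ⟨z, hz⟩ := hW h
    exact hs (el_inj Y (hz : el Y i z 1 = el Y i y s)).2.symm
  obtain ⟨z, hz⟩ := hW (hmem (el Y i y 2))
  obtain ⟨z', hz'⟩ := hW (hmem (el Y i y 0))
  change el Y i z 1 = r (el Y i y 2) at hz
  change el Y i z' 1 = r (el Y i y 0) at hz'
  have h1 : z ≤ y := by
    rcases hcomp _ (hnot 2 (by decide)) with h | h
    · rw [← hz, el_le_el, E_le, E.mk.injEq] at h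
      rcases h with h | ⟨-, h | h⟩
      · exact absurd h.2 (show (2 : Fin 3) ≠ 1 by decide)
      · exact absurd (show (2 : Fin 3) < 1 from h) (by decide)
      · exact absurd (show (2 : Fin 3) = 1 from h.1) (by decide)
    · rw [← hz, el_le_el] at h
      exact E_pt h
  have h2 : y ≤ z' := by
    rcases hcomp _ (hnot 0 (by decide)) with h | h
    · rw [← hz', el_le_el] at h
      exact E_pt h
    · rw [← hz', el_le_el, E_le, E.mk.injEq] at h
      rcases h with h | ⟨-, h | h⟩
      · exact absurd h.2 (show (1 : Fin 3) ≠ 0 by decide)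
      · exact absurd (show (1 : Fin 3) < 0 from h) (by decide)
      · exact absurd (show (0 : Fin 3) = 1 from h.2) (by decide)
  have h3 : z' ≤ z := by
    have h := hmono (el Y i y 0) (el Y i y 2)
      ((el_le_el Y).2 (Or.inr ⟨le_refl _, Or.inl (show (0 : Fin 3) < 2 by decide)⟩))
    rw [← hz, ← hz'] at h
    exact (el_one_le Y).1 h
  have h4 : z = y := le_antisymm h1 (h2.trans h3)
  apply hy
  rw [h4] at hz
  show el Y i y 1 ∈ W
  rw [hz]
  exact hmem _

end

/-- 1. For every finite list `Y 1, …, Y m` of finite ordered sets with a least and a greatest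
element there is a finite ordered set `X` in which all of them, up to isomorphism, are minimal
relating retracts. 2. So for every `m` there is a finite ordered set with `m` pairwise
non-isomorphic minimal relating retracts. -/
theorem result :
    (∀ (m : ℕ) (Y : Fin m → Type) [∀ i, Finite (Y i)] [∀ i, PartialOrder (Y i)]
      [∀ i, BoundedOrder (Y i)],
      ∃ (X : Type) (_ : Finite X) (_ : PartialOrder X) (Z : Fin m → Set X),
        ∀ i, IsMinimalRelatingRetract (Z i) ∧ Nonempty (Z i ≃o Y i)) ∧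
    ∀ m : ℕ, ∃ (X : Type) (_ : Finite X) (_ : PartialOrder X) (Z : Fin m → Set X),
      (∀ i, IsMinimalRelatingRetract (Z i)) ∧ ∀ i j, i ≠ j → ¬ Nonempty (Z i ≃o Z j) := by
  have h1 : ∀ (m : ℕ) (Y : Fin m → Type) [∀ i, Finite (Y i)] [∀ i, PartialOrder (Y i)]
      [∀ i, BoundedOrder (Y i)],
      ∃ (X : Type) (_ : Finite X) (_ : PartialOrder X) (Z : Fin m → Set X),
        ∀ i, IsMinimalRelatingRetract (Z i) ∧ Nonempty (Z i ≃o Y i) := by
    intro m Y _ _ _
    have : Finite (Sum Y) := inferInstanceAs (Finite (Sigma fun i => E (Y i)))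
    exact ⟨Sum Y, inferInstance, inferInstance, fun i => Set.range (emb Y i), fun i =>
      ⟨isMinimal Y i, ⟨(emb Y i).orderIso.symm⟩⟩⟩
  refine ⟨h1, fun m => ?_⟩
  obtain ⟨X, hX, hP, Z, hZ⟩ := h1 m (fun i => Fin (i.1 + 1))
  refine ⟨X, hX, hP, Z, fun i => (hZ i).1, ?_⟩
  rintro i j hij ⟨e⟩
  obtain ⟨ei⟩ := (hZ i).2
  obtain ⟨ej⟩ := (hZ j).2
  have h2 := Nat.card_congr ((ei.symm.trans e).trans ej).toEquiv
  simp only [Nat.card_eq_fintype_card, Fintype.card_fin] at h2
  exact hij (Fin.ext (by omega))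

end Pool.Agent.Results.MP_33f3d1_co.AllBoundedPosets
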